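import Mathlib
import Pool.Agent.H805Z.Specht.Defs
import Pool.Agent.H805Z.Specht.Main

set_option autoImplicit false

namespace Pool.Agent.Results.MP_63ef02_al.ANotSpecht

open Pool.Agent.H805Z.Specht

/-- Over every infinite field of characteristic 3 and for every `n ≥ 6` there is an associative
algebra `A` satisfying all identities of `M_n(F)` whose T-ideal of identities is not finitely
generated: the subvariety `var A` of `var M_n(F)` is not finitely based. -/
theorem result (F : Type) [Field F] [CharP F 3] [Infinite F] (n : ℕ) (hn : 6 ≤ n) :
    ∃ (A : Type) (_ : Ring A) (_ : Algebra F A),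
      (∀ f, IsIdentity F (Matrix (Fin n) (Fin n) F) f → IsIdentity F A f) ∧
        ¬ FinitelyBased F A :=
  main F n hn

end Pool.Agent.Results.MP_63ef02_al.ANotSpecht
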